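import Pool.Agent.X70.Coal4

/-!
MP_e22fa6_co, Q1: for average-distance costs and at most two coalitions there
is always a sorted optimal coalition structure, in both the HIS and the UIS
setting.
-/

namespace Pool.Agent.Results.MP_e22fa6_co.SortedOptimum

open Finset X70.Coal

/-- Cost of agent `i` in the coalition `C`; `u` is the cost of a singleton
(`u = 0` is HIS, `u = ⊤` is UIS). -/
noncomputable def cost {n : ℕ} (v : Fin n → ℝ) (u : EReal) (C : Finset (Fin n)) (i : Fin n) :
    EReal :=
  if C.card = 1 then u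
  else (((1 / ((C.card : ℝ) - 1)) * ∑ j ∈ C \ {i}, |v i - v j| : ℝ) : EReal)

/-- Social cost of a coalition structure (a partition of the set of agents). -/
noncomputable def SC {n : ℕ} (v : Fin n → ℝ) (u : EReal)
    (P : Finpartition (univ : Finset (Fin n))) : EReal :=
  ∑ C ∈ P.parts, ∑ i ∈ C, cost v u C i

/-- Sorted coalition structures. -/
def Sorted {n : ℕ} (v : Fin n → ℝ) (P : Finpartition (univ : Finset (Fin n))) : Prop :=
  ∀ C ∈ P.parts, ∀ i ∈ C, ∀ j ∈ C, ∀ l : Fin n,
    min (v i) (v j) ≤ v l → v l ≤ max (v i) (v j) → l ∈ C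

/-- `P` minimises the social cost over all structures with at most two coalitions. -/
def Optimal {n : ℕ} (v : Fin n → ℝ) (u : EReal)
    (P : Finpartition (univ : Finset (Fin n))) : Prop :=
  P.parts.card ≤ 2 ∧
    ∀ Q : Finpartition (univ : Finset (Fin n)), Q.parts.card ≤ 2 → SC v u P ≤ SC v u Q

/-! ### Gaps and pair distances -/

/-- indicator of `i < t` -/
noncomputable def chi (i t : ℕ) : ℝ := if i < t then 1 else 0

/-- the values as a function on `ℕ` -/
noncomputable def w {n : ℕ} (v : Fin n → ℝ) (i : ℕ) : ℝ :=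
  if h : i < n then v ⟨i, h⟩ else 0

/-- gaps -/
noncomputable def gap {n : ℕ} (v : Fin n → ℝ) (t : ℕ) : ℝ :=
  if 1 ≤ t ∧ t < n then w v t - w v (t - 1) else 0

lemma w_eq {n : ℕ} (v : Fin n → ℝ) (i : Fin n) : w v i = v i := by
  unfold w
  rw [dif_pos i.isLt]

lemma gap_nonneg {n : ℕ} {v : Fin n → ℝ} (hv : Monotone v) (t : ℕ) : 0 ≤ gap v t := by
  unfold gap
  split_ifs with h
  · unfold w
    rw [dif_pos h.2, dif_pos (by omega : t - 1 < n)]
    have : v ⟨t - 1, by omega⟩ ≤ v ⟨t, h.2⟩ := hv (by simp)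
    linarith
  · exact le_rfl

lemma diff_eq {n : ℕ} (v : Fin n → ℝ) {i j : ℕ} (hij : i ≤ j) (hj : j < n) :
    w v j - w v i = ∑ t ∈ Ico (i + 1) (j + 1), gap v t := by
  induction j, hij using Nat.le_induction with
  | base => simp
  | succ m hm ih =>
    rw [Finset.sum_Ico_succ_top (by omega), ← ih (by omega)]
    have : gap v (m + 1) = w v (m + 1) - w v m := by
      unfold gap
      rw [if_pos ⟨by omega, hj⟩]
      simp
    rw [this]; ring

lemma abs_eq {n : ℕ} {v : Fin n → ℝ} (hv : Monotone v) (i j : Fin n) :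
    |v i - v j| = ∑ t ∈ Ico 1 n, gap v t *
      (chi i t * (1 - chi j t) + chi j t * (1 - chi i t)) := by
  wlog hij : i ≤ j with H
  · rw [abs_sub_comm, H hv j i (le_of_not_ge hij)]
    apply Finset.sum_congr rfl
    intro t _
    ring
  have h1 : v i ≤ v j := hv hij
  rw [abs_sub_comm, abs_of_nonneg (by linarith), ← w_eq v i, ← w_eq v j,
    diff_eq v (by exact_mod_cast hij) j.isLt]
  have hsub : Ico ((i : ℕ) + 1) (j + 1) ⊆ Ico 1 n := by
    intro t ht
    rw [Finset.mem_Ico] at ht ⊢
    have := j.isLt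
    omega
  rw [← Finset.sum_subset hsub]
  · apply Finset.sum_congr rfl
    intro t ht
    rw [Finset.mem_Ico] at ht
    unfold chi
    rw [if_pos (by omega : (i : ℕ) < t), if_neg (by omega : ¬ (j : ℕ) < t)]
    ring
  · intro t _ ht2
    rw [Finset.mem_Ico] at ht2
    have hij' : (i : ℕ) ≤ j := by exact_mod_cast hij
    unfold chi
    rcases (by omega : ((i : ℕ) < t ∧ (j : ℕ) < t) ∨ (¬ (i : ℕ) < t ∧ ¬ (j : ℕ) < t)) with h | h
    · rw [if_pos h.1, if_pos h.2]; ring
    · rw [if_neg h.1, if_neg h.2]; ring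

/-- members of `S` among the first `t` agents -/
def al {n : ℕ} (S : Finset (Fin n)) (t : ℕ) : ℕ := (S.filter (fun i : Fin n => (i : ℕ) < t)).card

lemma al_sum {n : ℕ} (S : Finset (Fin n)) (t : ℕ) : ∑ i ∈ S, chi i t = al S t := by
  unfold chi al
  rw [Finset.sum_boole]

/-- half of the total pair cost of a coalition -/
noncomputable def hh {n : ℕ} (v : Fin n → ℝ) (S : Finset (Fin n)) : ℝ :=
  2 * ∑ t ∈ Ico 1 n, gap v t * ((al S t : ℝ) * (S.card - al S t) / (S.card - 1))

lemma pair_sum {n : ℕ} {v : Fin n → ℝ} (hv : Monotone v) (S : Finset (Fin n)) :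
    ∑ i ∈ S, ∑ j ∈ S, |v i - v j| =
      2 * ∑ t ∈ Ico 1 n, gap v t * ((al S t : ℝ) * (S.card - al S t)) := by
  have h1 : ∀ i ∈ S, ∑ j ∈ S, |v i - v j| = ∑ t ∈ Ico 1 n, gap v t *
      (chi i t * (S.card - al S t) + al S t * (1 - chi i t)) := by
    intro i _
    rw [Finset.sum_congr rfl (fun j _ => abs_eq hv i j), Finset.sum_comm]
    apply Finset.sum_congr rfl
    intro t _
    rw [← Finset.mul_sum, Finset.sum_add_distrib, ← Finset.mul_sum, ← Finset.sum_mul,
      Finset.sum_sub_distrib, al_sum]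
    simp
  rw [Finset.sum_congr rfl h1, Finset.sum_comm, Finset.mul_sum]
  apply Finset.sum_congr rfl
  intro t _
  rw [← Finset.mul_sum, Finset.sum_add_distrib, ← Finset.sum_mul, ← Finset.mul_sum,
    Finset.sum_sub_distrib, al_sum]
  simp
  ring

lemma coe_sum {ι : Type*} (s : Finset ι) (f : ι → ℝ) :
    ∑ i ∈ s, ((f i : ℝ) : EReal) = ((∑ i ∈ s, f i : ℝ) : EReal) := by
  classical
  induction s using Finset.induction_on with
  | empty => simp
  | insert a s ha ih => rw [Finset.sum_insert ha, Finset.sum_insert ha, ih, EReal.coe_add]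

lemma coalition_cost {n : ℕ} {v : Fin n → ℝ} (hv : Monotone v) (u : EReal)
    {C : Finset (Fin n)} (hC : C.card ≠ 1) :
    ∑ i ∈ C, cost v u C i = ((hh v C : ℝ) : EReal) := by
  unfold cost
  simp only [if_neg hC]
  rw [coe_sum]
  congr 1
  rw [← Finset.mul_sum]
  have h1 : ∑ i ∈ C, ∑ j ∈ C \ {i}, |v i - v j| = ∑ i ∈ C, ∑ j ∈ C, |v i - v j| := by
    apply Finset.sum_congr rfl
    intro i hi
    rw [← Finset.sum_sdiff (Finset.singleton_subset_iff.mpr hi)]
    simp
  rw [h1, pair_sum hv]
  unfold hh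
  rw [Finset.mul_sum, Finset.mul_sum, Finset.mul_sum]
  apply Finset.sum_congr rfl
  intro t _
  ring

lemma singleton_cost {n : ℕ} (v : Fin n → ℝ) (u : EReal)
    {C : Finset (Fin n)} (hC : C.card = 1) : ∑ i ∈ C, cost v u C i = u := by
  obtain ⟨a, rfl⟩ := Finset.card_eq_one.mp hC
  unfold cost
  simp

/-! ### Paths and cuts -/

lemma al_zero {n : ℕ} (S : Finset (Fin n)) : al S 0 = 0 := by
  unfold al; simp

lemma al_n {n : ℕ} (S : Finset (Fin n)) : al S n = S.card := by
  unfold al
  congr 1
  apply Finset.filter_true_of_mem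
  intro i _
  exact i.isLt

lemma al_compl {n : ℕ} (S : Finset (Fin n)) {t : ℕ} (ht : t ≤ n) : al S t + al Sᶜ t = t := by
  unfold al
  rw [← Finset.card_union_of_disjoint, ← Finset.filter_union, Finset.union_compl,
    Fin.card_filter_val_lt, min_eq_right ht]
  apply Finset.disjoint_filter_filter
  exact disjoint_compl_right

lemma al_mono {n : ℕ} (S : Finset (Fin n)) (t : ℕ) : al S t ≤ al S (t + 1) := by
  unfold al
  apply Finset.card_le_card
  intro i
  simp only [Finset.mem_filter]
  rintro ⟨h1, h2⟩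
  exact ⟨h1, by omega⟩

lemma path {n : ℕ} (S : Finset (Fin n)) : Path n S.card Sᶜ.card (al S) (al Sᶜ) :=
  ⟨fun _ ht => al_compl S ht, fun t _ => al_mono S t, fun t _ => al_mono Sᶜ t, al_n S, al_n Sᶜ⟩

/-- cost of a two-coalition structure -/
lemma two_cost {n : ℕ} (v : Fin n → ℝ) (S : Finset (Fin n)) :
    hh v S + hh v Sᶜ = 2 * ∑ t ∈ Ico 1 n, gap v t *
      ((al S t : ℝ) * (S.card - al S t) / (S.card - 1) +
        (al Sᶜ t : ℝ) * (Sᶜ.card - al Sᶜ t) / (Sᶜ.card - 1)) := by
  unfold hh
  rw [← mul_add, ← Finset.sum_add_distrib]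
  congr 1
  apply Finset.sum_congr rfl
  intro t _
  ring

lemma univ_cost {n : ℕ} (v : Fin n → ℝ) (δ : ℝ) : hh v (univ : Finset (Fin n)) =
    F δ (gap v) n 0 := by
  unfold hh F
  congr 1
  apply Finset.sum_congr rfl
  intro t ht
  rw [Finset.mem_Ico] at ht
  rw [U_zero δ ht.1]
  have h1 : al (univ : Finset (Fin n)) t = t := by
    unfold al
    rw [Fin.card_filter_val_lt, min_eq_right ht.2.le]
  rw [h1, Finset.card_univ, Fintype.card_fin]

/-- the first `s` agents -/
def low (n s : ℕ) : Finset (Fin n) := univ.filter (fun i : Fin n => (i : ℕ) < s)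

lemma low_card {n s : ℕ} (hs : s ≤ n) : (low n s).card = s := by
  unfold low
  rw [Fin.card_filter_val_lt, min_eq_right hs]

lemma al_low {n s t : ℕ} (hs : s ≤ n) : al (low n s) t = min s t := by
  unfold al low
  rw [Finset.filter_filter]
  have : (univ.filter (fun i : Fin n => (i : ℕ) < s ∧ (i : ℕ) < t)) =
      univ.filter (fun i : Fin n => (i : ℕ) < min s t) := by
    apply Finset.filter_congr
    intro i _
    rw [lt_min_iff]
  rw [this, Fin.card_filter_val_lt, min_eq_right (by omega)]

lemma cut_cost {n s : ℕ} (v : Fin n → ℝ) (δ : ℝ) (_hs : 1 ≤ s) (hsn : s + 1 ≤ n)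
    (hδ : δ = 0 ∨ (2 ≤ s ∧ s + 2 ≤ n)) :
    hh v (low n s) + hh v (low n s)ᶜ = F δ (gap v) n s := by
  rw [two_cost]
  unfold F
  congr 1
  apply Finset.sum_congr rfl
  intro t ht
  rw [Finset.mem_Ico] at ht
  congr 1
  have hc : ((low n s)ᶜ).card = n - s := by
    rw [Finset.card_compl, Fintype.card_fin, low_card (by omega)]
  have h1 := al_compl (low n s) ht.2.le
  rw [hc, low_card (by omega)]
  rw [al_low (by omega)] at h1 ⊢
  have hcR : ((n - s : ℕ) : ℝ) = n - s := by rw [Nat.cast_sub (by omega)]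
  rw [hcR]
  unfold U
  rcases lt_trichotomy t s with h | h | h
  · rw [if_pos h]
    have e1 : min s t = t := by omega
    have e2 : al (low n s)ᶜ t = 0 := by omega
    rw [e1, e2]
    simp
  · rw [if_neg (by omega), if_pos h]
    have e1 : min s t = s := by omega
    have e2 : al (low n s)ᶜ t = 0 := by omega
    rw [e1, e2]
    rcases hδ with q | q
    · rw [q]; simp
    · rw [if_neg (by omega)]; simp
  · rw [if_neg (by omega), if_neg (by omega)]
    have e1 : min s t = s := by omega
    have e2 : al (low n s)ᶜ t = t - s := by omega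
    rw [e1, e2, Nat.cast_sub h.le]
    have : ((t : ℝ) - s) * (n - s - (t - s)) = ((t : ℝ) - s) * (n - t) := by ring
    rw [this]
    simp

/-- HIS: a structure with a singleton is not better than one of the two
singleton cuts. -/
lemma single_ge {n : ℕ} {v : Fin n → ℝ} (hv : Monotone v) {S : Finset (Fin n)}
    (hS : S.card = 1) (hn : 2 ≤ n) :
    F 0 (gap v) n 1 ≤ hh v S + hh v Sᶜ ∨ F 0 (gap v) n (n - 1) ≤ hh v S + hh v Sᶜ := by
  obtain ⟨p, rfl⟩ := Finset.card_eq_one.mp hS
  have hc : (({p} : Finset (Fin n))ᶜ).card = n - 1 := by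
    rw [Finset.card_compl, Fintype.card_fin, hS]
  have hcR : ((n - 1 : ℕ) : ℝ) = n - 1 := by rw [Nat.cast_sub (by omega)]; simp
  have hal : ∀ t, al ({p} : Finset (Fin n)) t = if (p : ℕ) < t then 1 else 0 := by
    intro t
    unfold al
    rw [Finset.filter_singleton]
    split_ifs <;> simp
  rw [two_cost]
  unfold F
  have key : ∀ t, 1 ≤ t → t < n →
      ((al ({p} : Finset (Fin n)) t : ℝ) * ((({p} : Finset (Fin n)).card : ℝ) -
          al ({p} : Finset (Fin n)) t) / ((({p} : Finset (Fin n)).card : ℝ) - 1) +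
        (al ({p} : Finset (Fin n))ᶜ t : ℝ) * ((({p} : Finset (Fin n))ᶜ.card : ℝ) -
          al ({p} : Finset (Fin n))ᶜ t) / ((({p} : Finset (Fin n))ᶜ.card : ℝ) - 1)) =
      if (p : ℕ) < t then ((t : ℝ) - 1) * (n - t) / (n - 2) else (t : ℝ) * (n - 1 - t) / (n - 2) := by
    intro t ht1 ht2
    have h1 := al_compl ({p} : Finset (Fin n)) ht2.le
    rw [hc, hcR, hS, hal]
    rw [hal] at h1
    split_ifs at h1 ⊢ with q
    · have e : al ({p} : Finset (Fin n))ᶜ t = t - 1 := by omega
      rw [e, Nat.cast_sub ht1]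
      have e1 : ((n : ℝ) - 1 - ((t : ℝ) - ((1 : ℕ) : ℝ))) = n - t := by push_cast; ring
      have e2 : ((n : ℝ) - 1 - 1) = n - 2 := by ring
      rw [e1, e2]
      simp
    · have e : al ({p} : Finset (Fin n))ᶜ t = t := by omega
      rw [e]
      have e2 : ((n : ℝ) - 1 - 1) = n - 2 := by ring
      rw [e2]
      simp
  have hn2 : (0 : ℝ) ≤ n - 2 := by
    have : (2 : ℝ) ≤ n := by exact_mod_cast hn
    linarith
  have hU1 : ∀ t, 1 ≤ t → t < n → U 0 n 1 t = ((t : ℝ) - 1) * (n - t) / (n - 2) := by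
    intro t ht1 ht2
    unfold U
    rw [if_neg (by omega)]
    split_ifs with q1 q2
    · rw [q1]; simp
    · rw [q1]; simp
    · push_cast
      congr 1; ring
  have hU2 : ∀ t, 1 ≤ t → t < n → U 0 n (n - 1) t = (t : ℝ) * (n - 1 - t) / (n - 2) := by
    intro t ht1 ht2
    unfold U
    rw [hcR]
    split_ifs with q1 q2 q3
    · congr 1; ring
    · rw [q2, hcR]; simp
    · rw [q2, hcR]; simp
    · omega
  rcases le_total (2 * (p : ℕ)) n with hp | hp
  · left
    apply mul_le_mul_of_nonneg_left _ (by norm_num)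
    apply Finset.sum_le_sum
    intro t ht
    rw [Finset.mem_Ico] at ht
    apply mul_le_mul_of_nonneg_left _ (gap_nonneg hv t)
    rw [key t ht.1 ht.2, hU1 t ht.1 ht.2]
    split_ifs with q
    · exact le_rfl
    · apply div_le_div_of_nonneg_right _ hn2
      have : 2 * (t : ℝ) ≤ n := by exact_mod_cast (by omega : 2 * t ≤ n)
      nlinarith
  · right
    apply mul_le_mul_of_nonneg_left _ (by norm_num)
    apply Finset.sum_le_sum
    intro t ht
    rw [Finset.mem_Ico] at ht
    apply mul_le_mul_of_nonneg_left _ (gap_nonneg hv t)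
    rw [key t ht.1 ht.2, hU2 t ht.1 ht.2]
    split_ifs with q
    · apply div_le_div_of_nonneg_right _ hn2
      have : (n : ℝ) ≤ 2 * t := by exact_mod_cast (by omega : n ≤ 2 * t)
      nlinarith
    · exact le_rfl

/-! ### Coalition structures -/

lemma parts_cases {n : ℕ} (hn : 1 ≤ n) (Q : Finpartition (univ : Finset (Fin n)))
    (hQ : Q.parts.card ≤ 2) :
    Q.parts = {univ} ∨ ∃ C : Finset (Fin n), C.Nonempty ∧ Cᶜ.Nonempty ∧ Q.parts = {C, Cᶜ} := by
  have hne : (univ : Finset (Fin n)) ≠ ⊥ := by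
    intro h
    have : (⟨0, by omega⟩ : Fin n) ∈ (univ : Finset (Fin n)) := Finset.mem_univ _
    rw [h] at this
    simp at this
  have hpos : 0 < Q.parts.card := Finset.card_pos.mpr (Q.parts_nonempty hne)
  rcases (by omega : Q.parts.card = 1 ∨ Q.parts.card = 2) with h | h
  · left
    obtain ⟨C, hC⟩ := Finset.card_eq_one.mp h
    have := Q.sup_parts
    rw [hC, Finset.sup_singleton] at this
    rw [hC]
    exact congrArg _ this
  · right
    obtain ⟨A, B, hAB, hP⟩ := Finset.card_eq_two.mp h
    have hA : A ∈ Q.parts := by rw [hP]; simp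
    have hB : B ∈ Q.parts := by rw [hP]; simp
    have hd : Disjoint A B := Q.disjoint hA hB hAB
    have hs := Q.sup_parts
    rw [hP, Finset.sup_insert, Finset.sup_singleton] at hs
    have hBA : B = Aᶜ := by
      have h1 : A ∪ B = univ := hs
      ext x
      rw [Finset.mem_compl]
      constructor
      · intro hx hxA
        exact (Finset.disjoint_left.mp hd hxA) hx
      · intro hx
        have : x ∈ A ∪ B := by rw [h1]; simp
        rcases Finset.mem_union.mp this with q | q
        · exact absurd q hx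
        · exact q
    refine ⟨A, Q.nonempty_of_mem_parts hA, ?_, ?_⟩
    · rw [← hBA]; exact Q.nonempty_of_mem_parts hB
    · rw [hP, hBA]

lemma SC_univ {n : ℕ} {v : Fin n → ℝ} (hv : Monotone v) (u : EReal) (hn : 2 ≤ n)
    {Q : Finpartition (univ : Finset (Fin n))} (hQ : Q.parts = {univ}) :
    SC v u Q = ((F 0 (gap v) n 0 : ℝ) : EReal) := by
  unfold SC
  rw [hQ, Finset.sum_singleton, coalition_cost hv u, univ_cost v 0]
  rw [Finset.card_univ, Fintype.card_fin]
  omega

lemma ne_compl {n : ℕ} {C : Finset (Fin n)} (hC : C.Nonempty) : C ≠ Cᶜ := by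
  intro h
  obtain ⟨x, hx⟩ := hC
  have h2 := hx
  rw [h, Finset.mem_compl] at h2
  exact h2 hx

lemma SC_two {n : ℕ} {v : Fin n → ℝ} (u : EReal)
    {Q : Finpartition (univ : Finset (Fin n))} {C : Finset (Fin n)} (hC : C.Nonempty)
    (hQ : Q.parts = {C, Cᶜ}) :
    SC v u Q = ∑ i ∈ C, cost v u C i + ∑ i ∈ Cᶜ, cost v u Cᶜ i := by
  unfold SC
  rw [hQ, Finset.sum_pair (ne_compl hC)]

/-- the structure with the two coalitions `C` and its complement -/
def twoPart {n : ℕ} (C : Finset (Fin n)) (hC : C.Nonempty) (hC' : Cᶜ.Nonempty) :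
    Finpartition (univ : Finset (Fin n)) :=
  (Finpartition.indiscrete (a := C) hC.ne_empty).extend (b := Cᶜ) hC'.ne_empty
    disjoint_compl_right (by simp)

lemma twoPart_parts {n : ℕ} (C : Finset (Fin n)) (hC : C.Nonempty) (hC' : Cᶜ.Nonempty) :
    (twoPart C hC hC').parts = {C, Cᶜ} := by
  unfold twoPart
  rw [Finpartition.extend_parts, Finpartition.indiscrete_parts, Finset.pair_comm]

lemma sorted_cut {n s : ℕ} {v : Fin n → ℝ} (hv : Monotone v) (hs : 1 ≤ s) (hsn : s + 1 ≤ n)
    (hg : gap v s ≠ 0) {P : Finpartition (univ : Finset (Fin n))}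
    (hP : P.parts = {low n s, (low n s)ᶜ}) : Sorted v P := by
  have hlt : v ⟨s - 1, by omega⟩ < v ⟨s, by omega⟩ := by
    have h1 : gap v s = v ⟨s, by omega⟩ - v ⟨s - 1, by omega⟩ := by
      unfold gap w
      rw [if_pos ⟨hs, by omega⟩, dif_pos (by omega : s < n), dif_pos (by omega : s - 1 < n)]
    have h2 := gap_nonneg hv s
    rcases lt_or_eq_of_le h2 with q | q
    · rw [h1] at q; linarith
    · exact absurd q.symm hg
  intro C hC i hi j hj l h1 h2
  rw [hP, Finset.mem_insert, Finset.mem_singleton] at hC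
  rcases hC with rfl | rfl
  · unfold low at hi hj ⊢
    rw [Finset.mem_filter] at hi hj ⊢
    refine ⟨Finset.mem_univ _, ?_⟩
    by_contra hc
    have e1 : v i ≤ v ⟨s - 1, by omega⟩ := hv (by rw [Fin.le_def]; simp; omega)
    have e2 : v j ≤ v ⟨s - 1, by omega⟩ := hv (by rw [Fin.le_def]; simp; omega)
    have e3 : v ⟨s, by omega⟩ ≤ v l := hv (by rw [Fin.le_def]; simp; omega)
    have := max_le e1 e2
    linarith
  · unfold low at hi hj ⊢
    rw [Finset.mem_compl, Finset.mem_filter] at hi hj ⊢
    intro hc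
    have hi' : ¬ (i : ℕ) < s := fun q => hi ⟨Finset.mem_univ _, q⟩
    have hj' : ¬ (j : ℕ) < s := fun q => hj ⟨Finset.mem_univ _, q⟩
    have hc' := hc.2
    have e1 : v ⟨s, by omega⟩ ≤ v i := hv (by rw [Fin.le_def]; simp; omega)
    have e2 : v ⟨s, by omega⟩ ≤ v j := hv (by rw [Fin.le_def]; simp; omega)
    have e3 : v l ≤ v ⟨s - 1, by omega⟩ := hv (by rw [Fin.le_def]; simp; omega)
    have := le_min e1 e2
    linarith

lemma sorted_univ {n : ℕ} {v : Fin n → ℝ} {P : Finpartition (univ : Finset (Fin n))}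
    (hP : P.parts = {univ}) : Sorted v P := by
  intro C hC i _ j _ l _ _
  rw [hP, Finset.mem_singleton] at hC
  rw [hC]
  exact Finset.mem_univ _

lemma hh_single {n : ℕ} (v : Fin n → ℝ) {S : Finset (Fin n)} (hS : S.card = 1) :
    hh v S = 0 := by
  unfold hh
  rw [hS]
  have : ∀ t ∈ Ico 1 n, gap v t * ((al S t : ℝ) * (((1 : ℕ) : ℝ) - al S t) /
      (((1 : ℕ) : ℝ) - 1)) = 0 := by
    intro t _
    simp
  rw [Finset.sum_congr rfl this]
  simp

/-- HIS: the cost of a coalition is `hh` without exception. -/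
lemma coalition_cost_zero {n : ℕ} {v : Fin n → ℝ} (hv : Monotone v) (C : Finset (Fin n)) :
    ∑ i ∈ C, cost v 0 C i = ((hh v C : ℝ) : EReal) := by
  by_cases h : C.card = 1
  · rw [singleton_cost v 0 h, hh_single v h]; simp
  · exact coalition_cost hv 0 h

lemma one_compl {n : ℕ} {C : Finset (Fin n)} : C.card + Cᶜ.card = n := by
  rw [Finset.card_add_card_compl, Fintype.card_fin]

lemma univ_ne_bot {n : ℕ} (hn : 1 ≤ n) : (univ : Finset (Fin n)) ≠ ⊥ := by
  intro h
  have : (⟨0, by omega⟩ : Fin n) ∈ (univ : Finset (Fin n)) := Finset.mem_univ _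
  rw [h] at this
  simp at this

lemma low_nonempty {n s : ℕ} (hs : 1 ≤ s) (hsn : s + 1 ≤ n) : (low n s).Nonempty := by
  rw [← Finset.card_pos, low_card (by omega)]; omega

lemma low_compl_nonempty {n s : ℕ} (_hs : 1 ≤ s) (hsn : s + 1 ≤ n) : (low n s)ᶜ.Nonempty := by
  have := one_compl (C := low n s)
  rw [low_card (by omega)] at this
  rw [← Finset.card_pos]; omega

/-- **Main theorem.** For every instance `v` with `n ≥ 2` agents, in the HIS
setting (`u = 0`) and in the UIS setting (`u = ⊤`), there is a sorted coalition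
structure which minimises the social cost over all structures with at most two
coalitions. -/
theorem result : ∀ n : ℕ, 2 ≤ n → ∀ v : Fin n → ℝ, Monotone v → ∀ u : EReal, (u = 0 ∨ u = ⊤) →
    ∃ P : Finpartition (univ : Finset (Fin n)), Optimal v u P ∧ Sorted v P := by
  intro n hn v hv u hu
  have hg := gap_nonneg hv
  rcases hu with rfl | rfl
  · -- HIS
    obtain ⟨s, hmin, hs⟩ := exists_cut (δ := 0) le_rfl zero_le_one (g := gap v) hg (n := n)
      (by omega)
    have hlow : ∀ Q : Finpartition (univ : Finset (Fin n)), Q.parts.card ≤ 2 →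
        ((F 0 (gap v) n s : ℝ) : EReal) ≤ SC v 0 Q := by
      intro Q hQ
      rcases parts_cases (by omega) Q hQ with h | ⟨C, hC, hC', h⟩
      · rw [SC_univ hv 0 hn h, EReal.coe_le_coe_iff]
        exact hmin 0 (by omega)
      · rw [SC_two 0 hC h, coalition_cost_zero hv, coalition_cost_zero hv, ← EReal.coe_add,
          EReal.coe_le_coe_iff]
        have hc := one_compl (C := C)
        have hc1 : 0 < C.card := Finset.card_pos.mpr hC
        have hc2 : 0 < Cᶜ.card := Finset.card_pos.mpr hC'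
        by_cases h1 : C.card = 1
        · rcases single_ge hv h1 hn with q | q
          · exact (hmin 1 (by omega)).trans q
          · exact (hmin (n - 1) (by omega)).trans q
        · by_cases h2 : Cᶜ.card = 1
          · have := single_ge hv h2 hn
            rw [compl_compl, add_comm] at this
            rcases this with q | q
            · exact (hmin 1 (by omega)).trans q
            · exact (hmin (n - 1) (by omega)).trans q
          · rw [two_cost]
            exact split_ge 0 (path C) (by omega) (by omega) hg (hmin 0 (by omega))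
              (fun s' _ h' => hmin s' (by omega))
    rcases hs with rfl | ⟨hs1, hs2, hs3, _⟩
    · refine ⟨Finpartition.indiscrete (univ_ne_bot (by omega)), ⟨by simp, ?_⟩,
        sorted_univ (by simp)⟩
      intro Q hQ
      rw [SC_univ hv 0 hn (by simp)]
      exact hlow Q hQ
    · have hp := twoPart_parts _ (low_nonempty hs1 hs2) (low_compl_nonempty hs1 hs2)
      refine ⟨twoPart _ (low_nonempty hs1 hs2) (low_compl_nonempty hs1 hs2), ⟨?_, ?_⟩,
        sorted_cut hv hs1 hs2 hs3 hp⟩
      · rw [hp]; exact Finset.card_le_two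
      · intro Q hQ
        rw [SC_two 0 (low_nonempty hs1 hs2) hp, coalition_cost_zero hv, coalition_cost_zero hv,
          ← EReal.coe_add, cut_cost v 0 hs1 hs2 (Or.inl rfl)]
        exact hlow Q hQ
  · -- UIS
    have htop : ∀ Q : Finpartition (univ : Finset (Fin n)), ∀ C : Finset (Fin n), C.Nonempty →
        Q.parts = {C, Cᶜ} → (C.card = 1 ∨ Cᶜ.card = 1) → SC v ⊤ Q = ⊤ := by
      intro Q C hC h hcard
      rw [SC_two ⊤ hC h]
      by_cases h1 : C.card = 1
      · rw [singleton_cost v ⊤ h1]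
        apply EReal.top_add_of_ne_bot
        by_cases h2 : Cᶜ.card = 1
        · rw [singleton_cost v ⊤ h2]; simp
        · rw [coalition_cost hv ⊤ h2]; exact EReal.coe_ne_bot _
      · have h2 : Cᶜ.card = 1 := by tauto
        rw [singleton_cost v ⊤ h2, coalition_cost hv ⊤ h1]
        apply EReal.add_top_of_ne_bot
        exact EReal.coe_ne_bot _
    rcases (by omega : n ≤ 3 ∨ 4 ≤ n) with hn3 | hn4
    · refine ⟨Finpartition.indiscrete (univ_ne_bot (by omega)), ⟨by simp, ?_⟩,
        sorted_univ (by simp)⟩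
      intro Q hQ
      rcases parts_cases (by omega) Q hQ with h | ⟨C, hC, hC', h⟩
      · rw [SC_univ hv ⊤ hn h, SC_univ hv ⊤ hn (by simp)]
      · rw [htop Q C hC h]
        · exact le_top
        · have hc := one_compl (C := C)
          have hc1 : 0 < C.card := Finset.card_pos.mpr hC
          have hc2 : 0 < Cᶜ.card := Finset.card_pos.mpr hC'
          omega
    · obtain ⟨s, hmin, hs⟩ := exists_cut (δ := 1) zero_le_one le_rfl (g := gap v) hg (n := n)
        (by omega)
      have hF0 : F 0 (gap v) n 0 = F 1 (gap v) n 0 := by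
        rw [← univ_cost v 0, ← univ_cost v 1]
      have hlow : ∀ Q : Finpartition (univ : Finset (Fin n)), Q.parts.card ≤ 2 →
          ((F 1 (gap v) n s : ℝ) : EReal) ≤ SC v ⊤ Q := by
        intro Q hQ
        rcases parts_cases (by omega) Q hQ with h | ⟨C, hC, hC', h⟩
        · rw [SC_univ hv ⊤ hn h, EReal.coe_le_coe_iff, hF0]
          exact hmin 0 (by omega)
        · by_cases h1 : C.card = 1 ∨ Cᶜ.card = 1
          · rw [htop Q C hC h h1]; exact le_top
          · push Not at h1
            have hc := one_compl (C := C)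
            have hc1 : 0 < C.card := Finset.card_pos.mpr hC
            have hc2 : 0 < Cᶜ.card := Finset.card_pos.mpr hC'
            rw [SC_two ⊤ hC h, coalition_cost hv ⊤ h1.1, coalition_cost hv ⊤ h1.2,
              ← EReal.coe_add, EReal.coe_le_coe_iff, two_cost]
            exact split_ge 1 (path C) (by omega) (by omega) hg (hmin 0 (by omega))
              (fun s' _ h' => hmin s' (by omega))
      rcases hs with rfl | ⟨hs1, hs2, hs3, hs4⟩
      · refine ⟨Finpartition.indiscrete (univ_ne_bot (by omega)), ⟨by simp, ?_⟩,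
          sorted_univ (by simp)⟩
        intro Q hQ
        rw [SC_univ hv ⊤ hn (by simp), hF0]
        exact hlow Q hQ
      · have hs5 : 2 ≤ s ∧ s + 2 ≤ n := by
          have : ¬ (s = 1 ∨ s + 1 = n) := fun q => hs4 ⟨rfl, q⟩
          omega
        have hp := twoPart_parts _ (low_nonempty hs1 hs2) (low_compl_nonempty hs1 hs2)
        refine ⟨twoPart _ (low_nonempty hs1 hs2) (low_compl_nonempty hs1 hs2), ⟨?_, ?_⟩,
          sorted_cut hv hs1 hs2 hs3 hp⟩
        · rw [hp]; exact Finset.card_le_two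
        · intro Q hQ
          have hc := one_compl (C := low n s)
          have hc1 := low_card (n := n) (s := s) (by omega)
          rw [SC_two ⊤ (low_nonempty hs1 hs2) hp, coalition_cost hv ⊤ (by omega),
            coalition_cost hv ⊤ (by omega), ← EReal.coe_add,
            cut_cost v 1 hs1 hs2 (Or.inr hs5)]
          exact hlow Q hQ

end Pool.Agent.Results.MP_e22fa6_co.SortedOptimum
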